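import Mathlib
import Pool.Agent.Q153.TwoIndTau

/-!
# Cyclic groups whose largest `t`-independent set has size one, `t` odd
-/

set_option autoImplicit false

namespace Pool.Agent.Results.MP_c28122_co.SizeOne

/-- `A` is `t`-independent: `∑ λ_a a ≠ 0` for all integers `λ_a` (`a ∈ A`) with
`1 ≤ ∑ |λ_a| ≤ t`. -/
def Independent {n : ℕ} (t : ℕ) (A : Finset (ZMod n)) : Prop :=
  ∀ c : ZMod n → ℤ, 1 ≤ ∑ a ∈ A, |c a| → ∑ a ∈ A, |c a| ≤ t → ∑ a ∈ A, c a • a ≠ 0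

/-- `τ_±(Z_n,[1,t])`: the largest size of a `t`-independent subset of `Z_n` (`0` if only the empty
set is `t`-independent). -/
noncomputable def tau (n t : ℕ) : ℕ :=
  sSup {k | ∃ A : Finset (ZMod n), Independent t A ∧ A.card = k}

/-- **Theorem.** Let `t ≥ 3` be odd and `n ≥ 1`, and put `b = ⌊t²/2⌋ + t`. Then
`τ_±(Z_n,[1,t]) = 1` if and only if `t + 1 ≤ n ≤ b`, or `b < n ≤ b + (t+1)/2` and `n` is odd, or
`b < n ≤ b + (t+1)/2`, `t ≡ 1 mod 4` and `n ≡ 0 mod 4`. -/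
theorem result : ∀ t : ℕ, Odd t → 3 ≤ t → ∀ n : ℕ, 1 ≤ n →
    (tau n t = 1 ↔ t + 1 ≤ n ∧ (n ≤ t ^ 2 / 2 + t ∨
      (n ≤ t ^ 2 / 2 + t + (t + 1) / 2 ∧ (n % 2 = 1 ∨ (t % 4 = 1 ∧ n % 4 = 0))))) := by
  intro t ht ht3 n hn
  have : NeZero n := ⟨by omega⟩
  obtain ⟨r, hr⟩ : ∃ r, t = 2 * r - 1 := ⟨(t + 1) / 2, by rcases ht with ⟨k, hk⟩; omega⟩
  have hr2 : 2 ≤ r := by omega
  have h1 : (tau n t = 1 ↔ 2 * r ≤ n ∧
      ¬ (2 * r ^ 2 ≤ n ∧ (2 * r ^ 2 + r ≤ n ∨ (n % 2 = 0 ∧ (r % 2 = 0 ∨ n % 4 = 2))))) := by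
    rw [hr]
    exact Pool.Agent.Q153.TwoInd.tau_eq_one hr2
  rw [h1]
  have h2 : t ^ 2 / 2 + t + 1 = 2 * r ^ 2 := by
    obtain ⟨q, rfl⟩ : ∃ q, r = q + 1 := ⟨r - 1, by omega⟩
    have : t = 2 * q + 1 := by omega
    subst this
    have : (2 * q + 1) ^ 2 = 2 * (2 * q ^ 2 + 2 * q) + 1 := by ring
    rw [this]
    have e : 2 * (q + 1) ^ 2 = 2 * q ^ 2 + 4 * q + 2 := by ring
    omega
  generalize r ^ 2 = R at h2 ⊢
  generalize t ^ 2 / 2 = T at h2 ⊢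
  omega

end Pool.Agent.Results.MP_c28122_co.SizeOne
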